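import Pool.Agent.Results.MP_a60953_an.EveryProfile

/-! The statement of the earlier hand-in `Counterexample`, word for word, as the instance
`f t = t ^ 4` of `EveryProfile.result`. -/

open scoped Laplacian ContDiff

namespace Pool.Agent.Work.MP_a60953_an.Hedge.Cor

/-- The cylinder `Ω = {(t, y) : |y| < 1, 0 < t < 1}` in `ℝ^(m+2)`. -/
def Omega (m : ℕ) : Set (EuclideanSpace ℝ (Fin (m + 2))) :=
  {x | ∑ j : Fin (m + 1), x j.succ ^ 2 < 1 ∧ 0 < x 0 ∧ x 0 < 1}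

theorem old_statement (m : ℕ) :
    ∃ u v : EuclideanSpace ℝ (Fin (m + 2)) → ℝ,
      ContDiff ℝ ∞ u ∧ ContDiff ℝ ∞ v ∧
      AnalyticOnNhd ℝ u Set.univ ∧ AnalyticOnNhd ℝ v Set.univ ∧
      (∀ x ∈ Omega m, v x ≤ u x) ∧
      (∀ x ∈ Omega m, 0 < u x ∧ 0 < v x ∧ 0 < lineDeriv ℝ u x (EuclideanSpace.single 0 1)) ∧
      (∀ x : EuclideanSpace ℝ (Fin (m + 2)),
        x 0 = 0 → ∑ j : Fin (m + 1), x j.succ ^ 2 < 1 → u x = 0) ∧
      (∀ x ∈ Omega m, ∀ z ∈ Omega m, (∀ j : Fin (m + 1), x j.succ = z j.succ) → x 0 ≤ z 0 →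
        u x = v z → Laplacian.laplacian u x ≤ Laplacian.laplacian v z) ∧
      lineDeriv ℝ u 0 (EuclideanSpace.single 0 1) = 0 ∧
      ∃ x ∈ Omega m, u x ≠ v x := by
  obtain ⟨h4, -, hall⟩ := Pool.Agent.Results.MP_a60953_an.EveryProfile.result
  obtain ⟨L, u, v, -, hu, hv, cu, cv, h1, h2, h3, hc, h0, hne, -, -⟩ := hall m _ (h4 4 le_rfl)
  have eu : u = G m (fun t => t ^ 4) (fun t => L * t) := funext hu
  have ev : v = G m (fun t => (t / 4) ^ 4) (fun t => L * (t * (1 + t) / 2)) := funext hv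
  refine ⟨u, v, cu, cv, ?_, ?_, fun x hx => (h1 x hx).le, h2, h3, hc, h0, hne⟩
  · rw [eu]; exact (contDiff_G (n := ω) (by fun_prop) (by fun_prop)).analyticOnNhd
  · rw [ev]; exact (contDiff_G (n := ω) (by fun_prop) (by fun_prop)).analyticOnNhd

end Pool.Agent.Work.MP_a60953_an.Hedge.Cor
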