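import Pool.Agent.Work.MP_a60953_an.Calc
import Mathlib.Analysis.Calculus.IteratedDeriv.Lemmas
import Mathlib.Analysis.Calculus.Deriv.Comp

/-! Derivatives of `A(t) + B(t) |y|^2` on Euclidean space. -/

open scoped Laplacian ContDiff

namespace Pool.Agent.Work.MP_a60953_an.Hedge

variable {m : ℕ}

/-- `|y|^2`. -/
def rho (m : ℕ) (x : EuclideanSpace ℝ (Fin (m + 2))) : ℝ := ∑ j : Fin (m + 1), x j.succ ^ 2

/-- `A(t) + B(t) |y|^2`. -/
def G (m : ℕ) (A B : ℝ → ℝ) (x : EuclideanSpace ℝ (Fin (m + 2))) : ℝ :=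
  A (x 0) + B (x 0) * rho m x

lemma rho_nonneg (x : EuclideanSpace ℝ (Fin (m + 2))) : 0 ≤ rho m x :=
  Finset.sum_nonneg fun _ _ => sq_nonneg _

lemma contDiff_rho (n : WithTop ℕ∞) : ContDiff ℝ n (rho m) :=
  ContDiff.sum fun j _ => ((pr m j.succ).contDiff).pow 2

lemma contDiff_G {A B : ℝ → ℝ} {n : WithTop ℕ∞} (hA : ContDiff ℝ n A) (hB : ContDiff ℝ n B) :
    ContDiff ℝ n (G m A B) :=
  (hA.comp (pr m 0).contDiff).add ((hB.comp (pr m 0).contDiff).mul (contDiff_rho n))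

lemma hasFDerivAt_rho (x : EuclideanSpace ℝ (Fin (m + 2))) :
    HasFDerivAt (rho m) (∑ j : Fin (m + 1), (2 * x j.succ) • pr m j.succ) x := by
  have h := HasFDerivAt.fun_sum (u := Finset.univ)
    (fun (j : Fin (m + 1)) _ => (hasFDerivAt_coord (m := m) j.succ x).pow 2)
  refine fd_congr h rfl ?_
  ext v
  simp [pr_apply]

lemma hasFDerivAt_comp0 {A : ℝ → ℝ} {a : ℝ} (x : EuclideanSpace ℝ (Fin (m + 2)))
    (h : HasDerivAt A a (x 0)) :
    HasFDerivAt (fun z : EuclideanSpace ℝ (Fin (m + 2)) => A (z 0)) (a • pr m 0) x :=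
  h.comp_hasFDerivAt x (hasFDerivAt_coord 0 x)

lemma hasFDerivAt_G {A B : ℝ → ℝ} {a b : ℝ} (x : EuclideanSpace ℝ (Fin (m + 2)))
    (hA : HasDerivAt A a (x 0)) (hB : HasDerivAt B b (x 0)) :
    HasFDerivAt (G m A B) ((a + b * rho m x) • pr m 0 +
      B (x 0) • ∑ j : Fin (m + 1), (2 * x j.succ) • pr m j.succ) x := by
  have h := (hasFDerivAt_comp0 x hA).add ((hasFDerivAt_comp0 x hB).mul (hasFDerivAt_rho x))
  refine fd_congr h rfl ?_
  ext v
  simp [pr_apply]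
  ring

lemma fderiv_G_zero {A B : ℝ → ℝ} {a b : ℝ} (x : EuclideanSpace ℝ (Fin (m + 2)))
    (hA : HasDerivAt A a (x 0)) (hB : HasDerivAt B b (x 0)) :
    fderiv ℝ (G m A B) x (EuclideanSpace.single 0 1) = a + b * rho m x := by
  rw [(hasFDerivAt_G x hA hB).fderiv]
  simp [pr_apply, Fin.succ_ne_zero]

lemma fderiv_G_succ {A B : ℝ → ℝ} {a b : ℝ} (x : EuclideanSpace ℝ (Fin (m + 2)))
    (hA : HasDerivAt A a (x 0)) (hB : HasDerivAt B b (x 0)) (i : Fin (m + 1)) :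
    fderiv ℝ (G m A B) x (EuclideanSpace.single i.succ 1) = B (x 0) * (2 * x i.succ) := by
  rw [(hasFDerivAt_G x hA hB).fderiv]
  simp [pr_apply, (Fin.succ_ne_zero i).symm]

lemma lineDeriv_G {A B : ℝ → ℝ} {a b : ℝ} (x : EuclideanSpace ℝ (Fin (m + 2)))
    (hA : HasDerivAt A a (x 0)) (hB : HasDerivAt B b (x 0)) :
    lineDeriv ℝ (G m A B) x (EuclideanSpace.single 0 1) = a + b * rho m x := by
  rw [(hasFDerivAt_G x hA hB).differentiableAt.lineDeriv_eq_fderiv, fderiv_G_zero x hA hB]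

lemma laplacian_G {A A1 A2 B B1 B2 : ℝ → ℝ} (cA : ContDiff ℝ 2 A) (cB : ContDiff ℝ 2 B)
    (hA : ∀ z, HasDerivAt A (A1 z) z) (hA1 : ∀ z, HasDerivAt A1 (A2 z) z)
    (hB : ∀ z, HasDerivAt B (B1 z) z) (hB1 : ∀ z, HasDerivAt B1 (B2 z) z)
    (x : EuclideanSpace ℝ (Fin (m + 2))) :
    Δ (G m A B) x = A2 (x 0) + B2 (x 0) * rho m x + 2 * (m + 1) * B (x 0) := by
  rw [InnerProductSpace.laplacian_eq_iteratedFDeriv_orthonormalBasis _
    (EuclideanSpace.basisFun (Fin (m + 2)) ℝ)]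
  have hd : DifferentiableAt ℝ (fderiv ℝ (G m A B)) x :=
    (((contDiff_G (m := m) cA cB).fderiv_right (m := 1) le_rfl).differentiable
      (by norm_num)).differentiableAt
  have key : ∀ v, fderiv ℝ (fderiv ℝ (G m A B)) x v v =
      fderiv ℝ (fun z => fderiv ℝ (G m A B) z v) x v := by
    intro v
    rw [fderiv_clm_apply hd (differentiableAt_const v)]
    simp
  simp only [iteratedFDeriv_two_apply, Matrix.cons_val_zero, Matrix.cons_val_one, key,
    EuclideanSpace.basisFun_apply]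
  rw [Fin.sum_univ_succ]
  have e0 : (fun z => fderiv ℝ (G m A B) z (EuclideanSpace.single 0 1)) = G m A1 B1 := by
    funext z; rw [fderiv_G_zero z (hA _) (hB _)]; rfl
  have es : ∀ i : Fin (m + 1),
      fderiv ℝ (fun z => fderiv ℝ (G m A B) z (EuclideanSpace.single i.succ 1)) x
        (EuclideanSpace.single i.succ 1) = 2 * B (x 0) := by
    intro i
    have e1 : (fun z => fderiv ℝ (G m A B) z (EuclideanSpace.single i.succ 1)) =
        fun z : EuclideanSpace ℝ (Fin (m + 2)) => B (z 0) * (2 * z i.succ) := by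
      funext z; rw [fderiv_G_succ z (hA _) (hB _)]
    have h := (hasFDerivAt_comp0 x (hB _)).fun_mul
      ((hasFDerivAt_coord (m := m) i.succ x).const_mul 2)
    rw [e1, h.fderiv]
    simp [pr_apply, (Fin.succ_ne_zero i).symm]
    ring
  rw [e0, fderiv_G_zero x (hA1 _) (hB1 _), Finset.sum_congr rfl fun i _ => es i]
  simp
  ring

end Pool.Agent.Work.MP_a60953_an.Hedge
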