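import Pool.Agent.Work.MP_a60953_an.Hedge.Real
import Pool.Agent.Work.MP_a60953_an.Hedge.Lap
import Mathlib.Analysis.SpecialFunctions.SmoothTransition

/-! The profile hypotheses, two families that satisfy them, and the comparison condition. -/

open scoped Laplacian ContDiff Topology
open Set

namespace Pool.Agent.Work.MP_a60953_an.Hedge

lemma nat_le_infty (j : ℕ) : (j : WithTop ℕ∞) ≤ ∞ := by exact_mod_cast le_top

lemma hasDerivAt_iter {f : ℝ → ℝ} (hf : ContDiff ℝ ∞ f) (j : ℕ) (z : ℝ) :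
    HasDerivAt (iteratedDeriv j f) (iteratedDeriv (j + 1) f z) z := by
  rw [iteratedDeriv_succ]
  exact ((hf.differentiable_iteratedDeriv j (by exact_mod_cast ENat.natCast_lt_top j)) z).hasDerivAt

lemma exists_chain {f : ℝ → ℝ} (hf : ContDiff ℝ ∞ f) :
    ∃ M, Chain f (deriv f) (iteratedDeriv 2 f) (iteratedDeriv 3 f) (iteratedDeriv 4 f) M := by
  have hc : Continuous (iteratedDeriv 4 f) :=
    hf.continuous_iteratedDeriv 4 (nat_le_infty 4)
  obtain ⟨M, hM⟩ := (isCompact_Icc (a := (0 : ℝ)) (b := 1)).exists_bound_of_continuousOn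
    hc.continuousOn
  refine ⟨M, fun z => ?_, fun z => ?_, hasDerivAt_iter hf 2, hasDerivAt_iter hf 3,
    (norm_nonneg _).trans (hM 0 ⟨le_rfl, zero_le_one⟩), fun z hz => hM z hz⟩
  · simpa using hasDerivAt_iter hf 0 z
  · simpa using hasDerivAt_iter hf 1 z

lemma strictMonoOn_of_pos {f : ℝ → ℝ} (hf : ContDiff ℝ ∞ f)
    (hpos : ∀ t ∈ Ioo (0 : ℝ) 1, 0 < deriv f t) : StrictMonoOn f (Icc 0 1) :=
  strictMonoOn_of_deriv_pos (convex_Icc 0 1) hf.continuous.continuousOn
    (by rwa [interior_Icc])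

lemma pow_zero_jet {k : ℕ} (hk : 4 ≤ k) (j : ℕ) (hj : j ≤ 3) :
    iteratedDeriv j (fun t : ℝ => t ^ k) 0 = 0 := by
  rw [iteratedDeriv_fun_pow_zero, if_neg (by omega)]
  simp

lemma pow_deriv_pos {k : ℕ} (hk : 4 ≤ k) (t : ℝ) (ht : 0 < t) :
    0 < deriv (fun t : ℝ => t ^ k) t := by
  rw [(hasDerivAt_pow k t).deriv]
  have : (0 : ℝ) < k := by exact_mod_cast (by omega : 0 < k)
  positivity

lemma glue_zero_jet (j : ℕ) : iteratedDeriv j expNegInvGlue 0 = 0 := by
  have hc : Continuous (iteratedDeriv j expNegInvGlue) :=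
    (expNegInvGlue.contDiff (n := ⊤)).continuous_iteratedDeriv j (by exact_mod_cast le_top)
  have h : ∀ x ∈ Iio (0 : ℝ), iteratedDeriv j expNegInvGlue x = 0 := by
    intro x hx
    have e : expNegInvGlue =ᶠ[𝓝 x] fun _ => (0 : ℝ) := by
      filter_upwards [Iio_mem_nhds hx] with y hy using expNegInvGlue.zero_of_nonpos (le_of_lt hy)
    rw [e.iteratedDeriv_eq j]
    simp
  have hcl : IsClosed {x : ℝ | iteratedDeriv j expNegInvGlue x = 0} :=
    isClosed_eq hc continuous_const
  have : closure (Iio (0 : ℝ)) ⊆ {x : ℝ | iteratedDeriv j expNegInvGlue x = 0} :=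
    hcl.closure_subset_iff.2 h
  exact this (by simp)

lemma glue_deriv_pos (t : ℝ) (ht : 0 < t) : 0 < deriv expNegInvGlue t := by
  have e : expNegInvGlue =ᶠ[𝓝 t] fun x => Real.exp (-x⁻¹) := by
    filter_upwards [Ioi_mem_nhds ht] with y hy
    have : ¬ y ≤ 0 := not_le.2 hy
    simp [expNegInvGlue, this]
  have h : HasDerivAt (fun x : ℝ => Real.exp (-x⁻¹)) (Real.exp (-t⁻¹) * -(-(t ^ 2)⁻¹)) t :=
    (hasDerivAt_inv ht.ne').fun_neg.exp
  rw [e.deriv_eq, h.deriv, neg_neg]
  positivity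

variable {m : ℕ}

/-- The comparison condition for the pair built on `f`. -/
lemma comparison {f : ℝ → ℝ} (hf : ContDiff ℝ ∞ f) (z2 : iteratedDeriv 2 f 0 = 0)
    (z3 : iteratedDeriv 3 f 0 = 0) (hpos : ∀ t ∈ Ioo (0 : ℝ) 1, 0 < deriv f t) :
    ∃ L : ℝ, 0 < L ∧ ∀ x z : EuclideanSpace ℝ (Fin (m + 2)), 0 < x 0 → x 0 ≤ z 0 → z 0 < 1 →
      rho m x = rho m z →
      G m f (fun t => L * t) x = G m (fun t => f (t / 4)) (fun t => L * (t * (1 + t) / 2)) z →
      Δ (G m f (fun t => L * t)) x ≤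
        Δ (G m (fun t => f (t / 4)) (fun t => L * (t * (1 + t) / 2))) z := by
  obtain ⟨M, hM⟩ := exists_chain hf
  have hM0 := hM.nonneg
  refine ⟨8 * M + (6 + 150 * M) ^ 2, by positivity, ?_⟩
  set L := 8 * M + (6 + 150 * M) ^ 2 with hL
  intro x z hx hxz hz hρ heq
  have hf2 : ContDiff ℝ 2 f := hf.of_le (nat_le_infty 2)
  have q : ∀ w : ℝ, HasDerivAt (fun t : ℝ => t / 4) (1 / 4) w := fun w =>
    (hasDerivAt_id w).div_const 4
  rw [laplacian_G (A1 := deriv f) (A2 := iteratedDeriv 2 f) (B1 := fun _ => L) (B2 := fun _ => 0)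
    hf2 (by fun_prop) hM.d0 hM.d1
    (fun w => by simpa using (hasDerivAt_id w).const_mul L) (fun w => hasDerivAt_const w L),
    laplacian_G (A := fun t => f (t / 4)) (B := fun t => L * (t * (1 + t) / 2))
      (A1 := fun t => deriv f (t / 4) * (1 / 4))
      (A2 := fun t => iteratedDeriv 2 f (t / 4) * (1 / 4) * (1 / 4))
      (B1 := fun t => L * ((1 + 2 * t) / 2)) (B2 := fun _ => L)
      (hf2.comp (by fun_prop)) (by fun_prop)
      (fun w => (hM.d0 (w / 4)).comp w (q w))
      (fun w => ((hM.d1 (w / 4)).comp w (q w)).mul_const (1 / 4))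
      (fun w => by
        have := ((((hasDerivAt_id w).mul ((hasDerivAt_id w).const_add 1)).div_const 2).const_mul L)
        refine (this.congr_deriv ?_).congr_of_eventuallyEq
          (Filter.Eventually.of_forall fun w => ?_)
        · simp; left; ring
        · simp)
      (fun w => by
        have := (((((hasDerivAt_id w).const_mul 2).const_add 1).div_const 2).const_mul L)
        refine (this.congr_deriv ?_).congr_of_eventuallyEq
          (Filter.Eventually.of_forall fun w => ?_)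
        · simp
        · simp)]
  unfold G at heq
  rw [hρ] at heq ⊢
  have key := compare hM z2 z3 (strictMonoOn_of_pos hf hpos) (L := L)
    (by nlinarith [sq_nonneg (6 + 150 * M)]) (by nlinarith [sq_nonneg (6 + 150 * M)])
    hx hxz hz (rho_nonneg z) (N := (m : ℝ) + 1) (by have := Nat.cast_nonneg (α := ℝ) m; linarith)
    heq
  linarith

end Pool.Agent.Work.MP_a60953_an.Hedge
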