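import Mathlib.Analysis.Calculus.MeanValue
import Mathlib.Analysis.Calculus.Deriv.MeanValue
import Mathlib.Analysis.Calculus.Deriv.Pow
import Mathlib.Analysis.Calculus.Deriv.Shift
import Mathlib.Analysis.SpecialFunctions.Sqrt

/-! One-variable estimates for an increasing function that vanishes to order four at `0`. -/

open Set

namespace Pool.Agent.Work.MP_a60953_an.Hedge

/-- Integrating a power bound once. -/
lemma step {g g' : ℝ → ℝ} {C a b : ℝ} {j : ℕ} (hC : 0 ≤ C) (hg : ∀ z, HasDerivAt g (g' z) z)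
    (g0 : g 0 = 0) (h0 : (0 : ℝ) ∈ Icc a b) (hb : ∀ z ∈ Icc a b, |g' z| ≤ C * |z| ^ j) :
    ∀ z ∈ Icc a b, |g z| ≤ C * |z| ^ (j + 1) := by
  intro z hz
  have hsub : uIcc 0 z ⊆ Icc a b := uIcc_subset_Icc h0 hz
  have key := (convex_uIcc (0 : ℝ) z).norm_image_sub_le_of_norm_hasDerivWithin_le
    (f := g) (f' := g') (C := C * |z| ^ j) (fun w _ => (hg w).hasDerivWithinAt)
    (fun w hw => by
      have h1 : |w| ≤ |z| := by
        have := abs_sub_left_of_mem_uIcc hw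
        simpa using this
      rw [Real.norm_eq_abs]
      exact (hb w (hsub hw)).trans
        (mul_le_mul_of_nonneg_left (pow_le_pow_left₀ (abs_nonneg _) h1 j) hC))
    left_mem_uIcc right_mem_uIcc
  rw [g0, sub_zero, sub_zero, Real.norm_eq_abs, Real.norm_eq_abs] at key
  rw [pow_succ, ← mul_assoc]
  exact key

/-- A function with four derivatives, the fourth bounded by `M` on `[0, 1]`. -/
structure Chain (f0 f1 f2 f3 f4 : ℝ → ℝ) (M : ℝ) : Prop where
  d0 : ∀ z, HasDerivAt f0 (f1 z) z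
  d1 : ∀ z, HasDerivAt f1 (f2 z) z
  d2 : ∀ z, HasDerivAt f2 (f3 z) z
  d3 : ∀ z, HasDerivAt f3 (f4 z) z
  nonneg : 0 ≤ M
  bound : ∀ z ∈ Icc (0 : ℝ) 1, |f4 z| ≤ M

variable {f0 f1 f2 f3 f4 : ℝ → ℝ} {M : ℝ}

lemma shift {g : ℝ → ℝ} {g' : ℝ} (x z : ℝ) (h : HasDerivAt g g' (x + z)) :
    HasDerivAt (fun w => g (x + w)) g' z := h.comp_const_add x z

lemma taylor4 (h : Chain f0 f1 f2 f3 f4 M) {x e : ℝ} (hx : x ∈ Icc (0 : ℝ) 1)
    (he : x + e ∈ Icc (0 : ℝ) 1) :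
    |f0 (x + e) - f0 x - e * f1 x - e ^ 2 * f2 x / 2 - e ^ 3 * f3 x / 6| ≤ M * e ^ 4 := by
  have h0 : (0 : ℝ) ∈ Icc (-x) (1 - x) := ⟨by linarith [hx.1], by linarith [hx.2]⟩
  have s3 := step (g := fun z => f3 (x + z) - f3 x) (g' := fun z => f4 (x + z)) (j := 0) h.nonneg
    (fun z => (shift x z (h.d3 _)).sub_const _) (by simp) h0
    (fun z hz => by
      simpa using h.bound (x + z) ⟨by linarith [hz.1], by linarith [hz.2]⟩)
  have s2 := step (g := fun z => f2 (x + z) - f2 x - z * f3 x)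
    (g' := fun z => f3 (x + z) - f3 x) h.nonneg
    (fun z => by
      have := ((shift x z (h.d2 _)).sub_const (f2 x)).sub ((hasDerivAt_id z).mul_const (f3 x))
      refine (this.congr_deriv ?_).congr_of_eventuallyEq (Filter.Eventually.of_forall fun w => ?_)
      · simp
      · simp) (by simp) h0 s3
  have s1 := step (g := fun z => f1 (x + z) - f1 x - z * f2 x - z ^ 2 * f3 x / 2)
    (g' := fun z => f2 (x + z) - f2 x - z * f3 x) h.nonneg
    (fun z => by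
      have := (((shift x z (h.d1 _)).sub_const (f1 x)).sub
        ((hasDerivAt_id z).mul_const (f2 x))).sub
        (((hasDerivAt_pow 2 z).mul_const (f3 x)).div_const 2)
      refine (this.congr_deriv ?_).congr_of_eventuallyEq (Filter.Eventually.of_forall fun w => ?_)
      · simp; ring
      · simp) (by simp) h0 s2
  have s0 := step
    (g := fun z => f0 (x + z) - f0 x - z * f1 x - z ^ 2 * f2 x / 2 - z ^ 3 * f3 x / 6)
    (g' := fun z => f1 (x + z) - f1 x - z * f2 x - z ^ 2 * f3 x / 2) h.nonneg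
    (fun z => by
      have := ((((shift x z (h.d0 _)).sub_const (f0 x)).sub
        ((hasDerivAt_id z).mul_const (f1 x))).sub
        (((hasDerivAt_pow 2 z).mul_const (f2 x)).div_const 2)).sub
        (((hasDerivAt_pow 3 z).mul_const (f3 x)).div_const 6)
      refine (this.congr_deriv ?_).congr_of_eventuallyEq (Filter.Eventually.of_forall fun w => ?_)
      · simp; ring
      · simp) (by simp) h0 s1
  have := s0 e ⟨by linarith [he.1], by linarith [he.2]⟩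
  have h4 : |e| ^ (0 + 1 + 1 + 1 + 1) = e ^ 4 := by
    rw [show (0 + 1 + 1 + 1 + 1 : ℕ) = 4 from rfl]
    exact Even.pow_abs (by decide) e
  rwa [h4] at this

lemma second_le (h : Chain f0 f1 f2 f3 f4 M) (z2 : f2 0 = 0) (z3 : f3 0 = 0) {x : ℝ}
    (hx : x ∈ Icc (0 : ℝ) 1) : |f2 x| ≤ M * x ^ 2 := by
  have h0 : (0 : ℝ) ∈ Icc (0 : ℝ) 1 := ⟨le_rfl, zero_le_one⟩
  have s3 := step (g := f3) (g' := f4) (j := 0) h.nonneg h.d3 z3 h0
    (fun z hz => by simpa using h.bound z hz)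
  have s2 := step (g := f2) (g' := f3) h.nonneg h.d2 z2 h0 s3
  have := s2 x hx
  rwa [show (0 + 1 + 1 : ℕ) = 2 from rfl, sq_abs] at this

/-- The finite-difference bound: four values in an interval of length `I`. -/
lemma fd_bound (h : Chain f0 f1 f2 f3 f4 M) {x e lo I : ℝ} (hx : x ∈ Icc (0 : ℝ) 1)
    (h1 : x + e ∈ Icc (0 : ℝ) 1) (h2 : x + 2 * e ∈ Icc (0 : ℝ) 1)
    (h3 : x + 3 * e ∈ Icc (0 : ℝ) 1)
    (v0 : f0 x ∈ Icc lo (lo + I)) (v1 : f0 (x + e) ∈ Icc lo (lo + I))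
    (v2 : f0 (x + 2 * e) ∈ Icc lo (lo + I)) (v3 : f0 (x + 3 * e) ∈ Icc lo (lo + I)) :
    e ^ 2 * |f2 x| ≤ 6 * I + 150 * M * e ^ 4 := by
  have t1 := abs_le.1 (taylor4 h hx h1)
  have t2 := abs_le.1 (taylor4 h hx h2)
  have t3 := abs_le.1 (taylor4 h hx h3)
  have he : e ^ 2 * |f2 x| = |e ^ 2 * f2 x| := by
    rw [abs_mul, abs_of_nonneg (sq_nonneg e)]
  rw [he, abs_le]
  obtain ⟨a0, b0⟩ := v0
  obtain ⟨a1, b1⟩ := v1
  obtain ⟨a2, b2⟩ := v2
  obtain ⟨a3, b3⟩ := v3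
  obtain ⟨p1, q1⟩ := t1
  obtain ⟨p2, q2⟩ := t2
  obtain ⟨p3, q3⟩ := t3
  constructor <;> nlinarith

/-- The second derivative at the ends of `[a, b]` is at most `C √(f b - f a)`. -/
lemma ends_le (h : Chain f0 f1 f2 f3 f4 M) (z2 : f2 0 = 0) (z3 : f3 0 = 0)
    (mono : MonotoneOn f0 (Icc 0 1)) {a b r x : ℝ} (ha : 0 ≤ a) (hb : b ≤ 1)
    (hab : b ≤ 3 * (b - a)) (hr : 0 < r) (hI : f0 b - f0 a = r ^ 2) (hx : x = a ∨ x = b) :
    |f2 x| ≤ (6 + 150 * M) * r := by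
  have hM := h.nonneg
  have hab' : a ≤ b := by linarith
  have hl : 0 < Real.sqrt r := Real.sqrt_pos.2 hr
  have hl2 : Real.sqrt r ^ 2 = r := Real.sq_sqrt hr.le
  set l := Real.sqrt r with hldef
  have hxab : x ∈ Icc a b := by
    rcases hx with rfl | rfl
    · exact ⟨le_rfl, hab'⟩
    · exact ⟨hab', le_rfl⟩
  have sub : ∀ z ∈ Icc a b, z ∈ Icc (0 : ℝ) 1 := fun z hz => ⟨ha.trans hz.1, hz.2.trans hb⟩
  have val : ∀ z ∈ Icc a b, f0 z ∈ Icc (f0 a) (f0 a + r ^ 2) := fun z hz =>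
    ⟨mono (sub a ⟨le_rfl, hab'⟩) (sub z hz) hz.1, by
      have := mono (sub z hz) (sub b ⟨hab', le_rfl⟩) hz.2
      linarith⟩
  by_cases hc : 3 * l ≤ b - a
  · obtain ⟨e, he2, m1, m2, m3⟩ : ∃ e : ℝ, e ^ 2 = r ∧ x + e ∈ Icc a b ∧ x + 2 * e ∈ Icc a b ∧
        x + 3 * e ∈ Icc a b := by
      rcases hx with rfl | rfl
      · exact ⟨l, hl2, ⟨by linarith, by linarith⟩, ⟨by linarith, by linarith⟩,
          ⟨by linarith, by linarith⟩⟩
      · exact ⟨-l, by rw [neg_sq, hl2], ⟨by linarith, by linarith⟩, ⟨by linarith, by linarith⟩,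
          ⟨by linarith, by linarith⟩⟩
    have key := fd_bound h (sub x hxab) (sub _ m1) (sub _ m2) (sub _ m3) (val _ hxab) (val _ m1)
      (val _ m2) (val _ m3)
    have he4 : e ^ 4 = r ^ 2 := by rw [← he2]; ring
    rw [he2, he4] at key
    refine le_of_mul_le_mul_left ?_ hr
    nlinarith
  · have hc' : b - a < 3 * l := not_le.1 hc
    have h1 := second_le h z2 z3 (sub x hxab)
    have hx0 : 0 ≤ x := ha.trans hxab.1
    have hx9 : x ≤ 9 * l := by linarith [hxab.2]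
    have h2 : x ^ 2 ≤ 81 * r := by nlinarith
    have h3 : M * x ^ 2 ≤ M * (81 * r) := mul_le_mul_of_nonneg_left h2 hM
    nlinarith [mul_nonneg hM hr.le]

/-- The comparison inequality. -/
lemma compare (h : Chain f0 f1 f2 f3 f4 M) (z2 : f2 0 = 0) (z3 : f3 0 = 0)
    (mono : StrictMonoOn f0 (Icc 0 1)) {L : ℝ} (hL1 : 8 * M ≤ L)
    (hL2 : (6 + 150 * M) ^ 2 ≤ 2 * L) {t s ρ N : ℝ} (ht : 0 < t) (hts : t ≤ s) (hs : s < 1)
    (hρ : 0 ≤ ρ) (hN : 1 ≤ N)
    (heq : f0 t + L * t * ρ = f0 (s / 4) + L * (s * (1 + s) / 2) * ρ) :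
    f2 t + 2 * N * (L * t) ≤ f2 (s / 4) / 16 + L * ρ + 2 * N * (L * (s * (1 + s) / 2)) := by
  have hM := h.nonneg
  have hL : 0 < L := by nlinarith
  have hs0 : 0 < s := ht.trans_le hts
  have mt : t ∈ Icc (0 : ℝ) 1 := ⟨ht.le, by linarith⟩
  have ms : s / 4 ∈ Icc (0 : ℝ) 1 := ⟨by linarith, by linarith⟩
  obtain ⟨d, hd⟩ : ∃ d, d = s * (1 + s) / 2 - t := ⟨_, rfl⟩
  have hI : f0 t - f0 (s / 4) = L * d * ρ := by rw [hd]; linarith
  have hh : s / 2 ≤ s * (1 + s) / 2 := by nlinarith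
  have hd0 : 0 ≤ d := by
    by_contra hneg
    have hneg' : d < 0 := not_le.1 hneg
    have h1 : f0 (s / 4) < f0 t := mono ms mt (by linarith)
    have h2 : 0 ≤ L * (-d) * ρ := mul_nonneg (mul_nonneg hL.le (by linarith)) hρ
    nlinarith
  have hLd : 0 ≤ L * d := mul_nonneg hL.le hd0
  have hLρ : 0 ≤ L * ρ := mul_nonneg hL.le hρ
  have star : |f2 t| + |f2 (s / 4)| ≤ L * ρ + 2 * (L * d) := by
    by_cases hc : t ≤ 3 * s / 8
    · have a1 := second_le h z2 z3 mt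
      have a2 := second_le h z2 z3 ms
      have b1 : t ^ 2 ≤ s := by nlinarith
      have b2 : (s / 4) ^ 2 ≤ s := by nlinarith
      have c1 := mul_le_mul_of_nonneg_left b1 hM
      have c2 := mul_le_mul_of_nonneg_left b2 hM
      have c3 : s / 8 ≤ d := by linarith
      have c4 : L * (s / 8) ≤ L * d := mul_le_mul_of_nonneg_left c3 hL.le
      have c5 : 8 * M * s ≤ L * s := mul_le_mul_of_nonneg_right hL1 hs0.le
      linarith
    · have hc' : 3 * s / 8 < t := not_le.1 hc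
      have hpos : 0 < f0 t - f0 (s / 4) := sub_pos.2 (mono ms mt (by linarith))
      have hr : 0 < Real.sqrt (f0 t - f0 (s / 4)) := Real.sqrt_pos.2 hpos
      have hr2 : Real.sqrt (f0 t - f0 (s / 4)) ^ 2 = f0 t - f0 (s / 4) := Real.sq_sqrt hpos.le
      set r := Real.sqrt (f0 t - f0 (s / 4)) with hrdef
      have e1 := ends_le h z2 z3 mono.monotoneOn (a := s / 4) (b := t) (x := t) ms.1 mt.2
        (by linarith) hr hr2.symm (Or.inr rfl)
      have e2 := ends_le h z2 z3 mono.monotoneOn (a := s / 4) (b := t) (x := s / 4) ms.1 mt.2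
        (by linarith) hr hr2.symm (Or.inl rfl)
      have hsq : (2 * ((6 + 150 * M) * r)) ^ 2 ≤ (L * ρ + 2 * (L * d)) ^ 2 := by
        have k1 : (2 * ((6 + 150 * M) * r)) ^ 2 = 4 * ((6 + 150 * M) ^ 2 * r ^ 2) := by ring
        have k2 : (6 + 150 * M) ^ 2 * r ^ 2 ≤ 2 * L * r ^ 2 :=
          mul_le_mul_of_nonneg_right hL2 (sq_nonneg r)
        have k3 : 2 * L * r ^ 2 = 2 * ((L * d) * (L * ρ)) := by rw [hr2, hI]; ring
        nlinarith [sq_nonneg (L * ρ - 2 * (L * d))]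
      have := abs_le_of_sq_le_sq' hsq (by linarith)
      linarith [this.2]
  have g1 := le_abs_self (f2 t)
  have g2 := neg_abs_le (f2 (s / 4))
  have g3 := abs_nonneg (f2 (s / 4))
  have g4 : L * d ≤ N * (L * d) := le_mul_of_one_le_left hLd hN
  have g5 : N * (L * (s * (1 + s) / 2)) = N * (L * t) + N * (L * d) := by rw [hd]; ring
  linarith

end Pool.Agent.Work.MP_a60953_an.Hedge
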